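import Pool.Agent.H606.OS.Stm

/-!
# Uniform bound for the pair sums
(project OS of helper606, task TL, written by helper539)
-/

open MeasureTheory Filter Topology Finset
open Pool.Agent.H606.OS

namespace Pool.Agent.H539.OS.TL

theorem ka_nonneg (x : ℝ) : 0 ≤ ka x := by
  unfold ka
  positivity

theorem ka_le_one (x : ℝ) : ka x ≤ 1 := by
  unfold ka
  rw [div_le_one (by positivity)]
  nlinarith [sq_nonneg x]

theorem ka_neg (x : ℝ) : ka (-x) = ka x := by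
  unfold ka
  rw [neg_sq]

theorem ka_anti {x y : ℝ} (h : |x| ≤ |y|) : ka y ≤ ka x := by
  unfold ka
  have h1 : x ^ 2 ≤ y ^ 2 := sq_le_sq.2 h
  exact one_div_le_one_div_of_le (by positivity) (by linarith)

/-- Pair sums. -/
noncomputable def PS (m : ℂ → ℝ) (c : ℝ) (A B : Finset ℂ) : ℝ :=
  ∑ s ∈ A, ∑ s' ∈ B, m s * m s' * ka (c * (s.im - s'.im))

theorem PS_comm (m : ℂ → ℝ) (c : ℝ) (A B : Finset ℂ) : PS m c A B = PS m c B A := by
  unfold PS
  rw [sum_comm]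
  refine sum_congr rfl fun s _ => sum_congr rfl fun s' _ => ?_
  rw [← ka_neg, show -(c * (s'.im - s.im)) = c * (s.im - s'.im) by ring, mul_comm (m s') (m s)]

theorem PS_mono {m : ℂ → ℝ} (hm : ∀ s, 0 ≤ m s) (c : ℝ) {A B A' B' : Finset ℂ} (hA : A ⊆ A')
    (hB : B ⊆ B') : PS m c A B ≤ PS m c A' B' := by
  unfold PS
  calc ∑ s ∈ A, ∑ s' ∈ B, m s * m s' * ka (c * (s.im - s'.im))
      ≤ ∑ s ∈ A, ∑ s' ∈ B', m s * m s' * ka (c * (s.im - s'.im)) :=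
        sum_le_sum fun s _ => sum_le_sum_of_subset_of_nonneg hB fun s' _ _ =>
          mul_nonneg (mul_nonneg (hm s) (hm s')) (ka_nonneg _)
    _ ≤ ∑ s ∈ A', ∑ s' ∈ B', m s * m s' * ka (c * (s.im - s'.im)) :=
        sum_le_sum_of_subset_of_nonneg hA fun s _ _ => sum_nonneg fun s' _ =>
          mul_nonneg (mul_nonneg (hm s) (hm s')) (ka_nonneg _)

theorem PS_le_sq {m : ℂ → ℝ} (hm : ∀ s, 0 ≤ m s) (c : ℝ) (A : Finset ℂ) :
    PS m c A A ≤ (∑ s ∈ A, m s) ^ 2 := by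
  unfold PS
  rw [sq, sum_mul_sum]
  exact sum_le_sum fun s _ => sum_le_sum fun s' _ =>
    mul_le_of_le_one_right (mul_nonneg (hm s) (hm s')) (ka_le_one _)

theorem PS_scale {m : ℂ → ℝ} (hm : ∀ s, 0 ≤ m s) {c c' : ℝ} (hc : 0 ≤ c) (hcc : c ≤ c')
    (A B : Finset ℂ) : PS m c' A B ≤ PS m c A B := by
  unfold PS
  refine sum_le_sum fun s _ => sum_le_sum fun s' _ =>
    mul_le_mul_of_nonneg_left (ka_anti ?_) (mul_nonneg (hm s) (hm s'))
  rw [abs_mul, abs_mul]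
  refine mul_le_mul_of_nonneg_right ?_ (abs_nonneg _)
  rw [abs_of_nonneg hc, abs_of_nonneg (hc.trans hcc)]
  exact hcc

theorem PS_union {m : ℂ → ℝ} (c : ℝ) {A B : Finset ℂ} [DecidableEq ℂ] (h : Disjoint A B) :
    PS m c (A ∪ B) (A ∪ B) = PS m c A A + PS m c A B + PS m c A B + PS m c B B := by
  have h1 : ∀ s, ∑ s' ∈ A ∪ B, m s * m s' * ka (c * (s.im - s'.im)) =
      ∑ s' ∈ A, m s * m s' * ka (c * (s.im - s'.im)) +
        ∑ s' ∈ B, m s * m s' * ka (c * (s.im - s'.im)) := fun s => sum_union h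
  have h2 : PS m c (A ∪ B) (A ∪ B) = PS m c A A + PS m c A B + (PS m c B A + PS m c B B) := by
    unfold PS
    rw [sum_union h, ← sum_add_distrib, ← sum_add_distrib]
    rw [sum_congr rfl fun s _ => h1 s, sum_congr (s₁ := B) rfl fun s _ => h1 s]
  rw [h2, PS_comm m c B A]
  ring

variable {C0 : ℝ} (D : ZD C0)

theorem ZG_mono {Y Y' : ℝ} (h : Y ≤ Y') : D.ZG Y ⊆ D.ZG Y' := fun s hs =>
  ((D.coh Y Y' h s).1 hs).1

theorem ZG_split [DecidableEq ℂ] (Y : ℝ) (hY : 0 ≤ Y) :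
    D.ZG (3 * Y / 2) = D.ZG Y ∪ zw D.ZG Y ∧ Disjoint (D.ZG Y) (zw D.ZG Y) := by
  have hle : Y ≤ 3 * Y / 2 := by linarith
  constructor
  · ext s
    unfold zw
    rw [mem_union, mem_filter, D.coh Y (3 * Y / 2) hle s]
    constructor
    · intro h
      rcases le_or_gt s.im Y with h1 | h1
      · exact Or.inl ⟨h, h1⟩
      · exact Or.inr ⟨h, h1⟩
    · rintro (h | h)
      · exact h.1
      · exact h.1
  · rw [disjoint_left]
    intro s h1 h2
    unfold zw at h2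
    rw [mem_filter] at h2
    exact absurd ((D.coh Y (3 * Y / 2) hle s).1 h1).2 (not_le.2 h2.2)

/-- One step. -/
theorem step {C1 C2 b : ℝ} (hC1 : 0 < C1) (hb : 0 < b) {T Y : ℝ} (hT : 10 ≤ T) (hY : 1 ≤ Y)
    (hYT : 3 * Y / 2 ≤ T)
    (h1 : ∑ s ∈ zw D.ZG Y, ∑ s' ∈ zw D.ZG Y, D.m s * D.m s' * ka (b * Real.log Y * (s.im - s'.im)) ≤
      C1 / b * (Y * Real.log Y))
    (h2 : ∀ τ : ℝ, ∑ s ∈ (D.ZG T).filter (fun s => s.im ≤ τ),
      ∑ s' ∈ (D.ZG T).filter (fun s => τ < s.im),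
        D.m s * D.m s' * ka (b * Real.log T * (s.im - s'.im)) ≤ C2 / b ^ 2 * (Real.log T) ^ 2) :
    PS D.m (b * Real.log T) (D.ZG (3 * Y / 2)) (D.ZG (3 * Y / 2)) ≤
      PS D.m (b * Real.log T) (D.ZG Y) (D.ZG Y) + C1 / b * (Y * Real.log T) +
        2 * (C2 / b ^ 2 * (Real.log T) ^ 2) := by
  classical
  obtain ⟨h3, h4⟩ := ZG_split D Y (by linarith)
  rw [h3, PS_union _ h4]
  have hlog : Real.log Y ≤ Real.log T := Real.log_le_log (by linarith) (by linarith)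
  have hlog0 : 0 ≤ Real.log Y := Real.log_nonneg hY
  have h5 : PS D.m (b * Real.log T) (zw D.ZG Y) (zw D.ZG Y) ≤ C1 / b * (Y * Real.log T) := by
    refine (PS_scale D.hm (mul_nonneg hb.le hlog0)
      (mul_le_mul_of_nonneg_left hlog hb.le) _ _).trans (h1.trans ?_)
    refine mul_le_mul_of_nonneg_left (mul_le_mul_of_nonneg_left hlog (by linarith)) ?_
    positivity
  have h6 : PS D.m (b * Real.log T) (D.ZG Y) (zw D.ZG Y) ≤ C2 / b ^ 2 * (Real.log T) ^ 2 := by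
    refine (PS_mono D.hm _ ?_ ?_).trans (h2 Y)
    · intro s hs
      rw [mem_filter]
      exact (D.coh Y T (by linarith) s).1 hs
    · intro s hs
      unfold zw at hs
      rw [mem_filter] at hs ⊢
      exact ⟨ZG_mono D hYT hs.1, hs.2⟩
  linarith

/-- The iteration. -/
theorem iter {C1 C2 b : ℝ} (hC1 : 0 < C1) (hC2 : 0 < C2) (hb : 0 < b) {Tb T : ℝ} (hT : 10 ≤ T)
    (hTb : 10 ≤ Tb)
    (h1 : ∀ Y, Tb ≤ Y → ∑ s ∈ zw D.ZG Y, ∑ s' ∈ zw D.ZG Y,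
      D.m s * D.m s' * ka (b * Real.log Y * (s.im - s'.im)) ≤ C1 / b * (Y * Real.log Y))
    (h2 : ∀ τ : ℝ, ∑ s ∈ (D.ZG T).filter (fun s => s.im ≤ τ),
      ∑ s' ∈ (D.ZG T).filter (fun s => τ < s.im),
        D.m s * D.m s' * ka (b * Real.log T * (s.im - s'.im)) ≤ C2 / b ^ 2 * (Real.log T) ^ 2)
    (k : ℕ) : ∀ T' : ℝ, 1 ≤ T' → T' ≤ T → T' ≤ (3 / 2) ^ k * (3 * Tb / 2) →
      PS D.m (b * Real.log T) (D.ZG T') (D.ZG T') ≤
        2 * C1 / b * (T' * Real.log T) + (∑ s ∈ D.ZG (3 * Tb / 2), D.m s) ^ 2 +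
          k * (2 * (C2 / b ^ 2 * (Real.log T) ^ 2)) := by
  have hlogT : 0 ≤ Real.log T := Real.log_nonneg (by linarith)
  have hbase : ∀ T' : ℝ, T' ≤ 3 * Tb / 2 → PS D.m (b * Real.log T) (D.ZG T') (D.ZG T') ≤
      (∑ s ∈ D.ZG (3 * Tb / 2), D.m s) ^ 2 := by
    intro T' h
    exact (PS_mono D.hm _ (ZG_mono D h) (ZG_mono D h)).trans (PS_le_sq D.hm _ _)
  induction k with
  | zero =>
    intro T' h3 h4 h5
    rw [pow_zero, one_mul] at h5
    have h6 := hbase T' h5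
    have h7 : 0 ≤ 2 * C1 / b * (T' * Real.log T) := by positivity
    rw [Nat.cast_zero, zero_mul]
    linarith
  | succ k ih =>
    intro T' h3 h4 h5
    have h8 : 0 ≤ 2 * (C2 / b ^ 2 * (Real.log T) ^ 2) := by positivity
    rcases le_or_gt T' (3 * Tb / 2) with h6 | h6
    · have h7 := hbase T' h6
      have h9 : 0 ≤ 2 * C1 / b * (T' * Real.log T) := by positivity
      have h10 : 0 ≤ ((k + 1 : ℕ) : ℝ) * (2 * (C2 / b ^ 2 * (Real.log T) ^ 2)) := by positivity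
      linarith
    · set Y : ℝ := 2 * T' / 3 with hY
      have hYT : 3 * Y / 2 = T' := by rw [hY]; ring
      have hYb : Tb ≤ Y := by rw [hY]; linarith
      have h9 := step D hC1 hb hT (by linarith) (by rw [hYT]; exact h4) (h1 Y hYb) h2
      rw [hYT] at h9
      have h10 := ih Y (by linarith) (by rw [hY]; linarith) (by
        rw [pow_succ] at h5
        rw [hY]
        linarith)
      have h11 : 2 * C1 / b * (Y * Real.log T) + C1 / b * (Y * Real.log T) =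
          2 * C1 / b * (T' * Real.log T) := by
        rw [hY]
        ring
      push_cast
      have h12 : ((k : ℝ) + 1) * (2 * (C2 / b ^ 2 * (Real.log T) ^ 2)) =
          k * (2 * (C2 / b ^ 2 * (Real.log T) ^ 2)) + 2 * (C2 / b ^ 2 * (Real.log T) ^ 2) := by
        ring
      rw [h12, ← h11]
      linarith

theorem t_TL (hPBW : S_PBW) (hCR : S_CR) : S_TL := by
  intro C0 hC0
  obtain ⟨C1, hC1, hP⟩ := hPBW C0 hC0
  obtain ⟨C2, hC2, hR⟩ := hCR C0 hC0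
  refine ⟨2 * C1, by positivity, fun D b hb hb1 => ?_⟩
  obtain ⟨Tb0, hTb0⟩ := eventually_atTop.1 (hP D b hb hb1)
  set Tb : ℝ := max Tb0 10 with hTb
  set S0 : ℝ := (∑ s ∈ D.ZG (3 * Tb / 2), D.m s) ^ 2 with hS0
  have hS00 : 0 ≤ S0 := sq_nonneg _
  refine ⟨S0 + 8 * (C2 / b ^ 2) + 1, by positivity, fun T hT T' hT1 hTT => ?_⟩
  set L : ℝ := Real.log T with hL
  have hTpos : 0 < T := by linarith
  have hL1 : 1 ≤ L := by
    rw [hL, Real.le_log_iff_exp_le hTpos]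
    have := Real.exp_one_lt_d9
    linarith
  have hk : T' ≤ (3 / 2) ^ (⌈3 * L⌉₊) * (3 * Tb / 2) := by
    have h1 : T ≤ (3 / 2 : ℝ) ^ (⌈3 * L⌉₊) := by
      rw [← Real.log_le_log_iff hTpos (by positivity), Real.log_pow, ← hL]
      have h2 : 3 * L ≤ (⌈3 * L⌉₊ : ℝ) := Nat.le_ceil _
      have h3 : (1 : ℝ) / 3 ≤ Real.log (3 / 2) := by
        rw [Real.le_log_iff_exp_le (by norm_num)]
        have h4 : Real.exp (1 / 3) ^ 3 ≤ (3 / 2 : ℝ) ^ 3 := by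
          rw [← Real.exp_nat_mul]
          have h5 : ((3 : ℕ) : ℝ) * (1 / 3) = 1 := by norm_num
          rw [h5]
          have := Real.exp_one_lt_d9
          norm_num
          linarith
        exact le_of_pow_le_pow_left₀ (by norm_num) (by norm_num) h4
      nlinarith
    have h2 : (1 : ℝ) ≤ 3 * Tb / 2 := by
      have : 10 ≤ Tb := le_max_right _ _
      linarith
    calc T' ≤ T := hTT
      _ ≤ (3 / 2 : ℝ) ^ (⌈3 * L⌉₊) := h1
      _ ≤ (3 / 2 : ℝ) ^ (⌈3 * L⌉₊) * (3 * Tb / 2) := le_mul_of_one_le_right (by positivity) h2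
  have h1 := iter D hC1 hC2 hb hT (le_max_right Tb0 10)
    (fun Y hY => hTb0 Y ((le_max_left _ _).trans hY)) (fun τ => hR D b hb hb1 T hT τ)
    ⌈3 * L⌉₊ T' hT1 hTT hk
  have h2 : (⌈3 * L⌉₊ : ℝ) ≤ 4 * L := by
    have := Nat.ceil_lt_add_one (a := 3 * L) (by positivity)
    linarith
  refine h1.trans ?_
  rw [← hL, ← hS0]
  have hc : 0 ≤ C2 / b ^ 2 := by positivity
  have h3 : (⌈3 * L⌉₊ : ℝ) * (2 * (C2 / b ^ 2 * L ^ 2)) ≤ 8 * (C2 / b ^ 2) * L ^ 3 := by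
    calc (⌈3 * L⌉₊ : ℝ) * (2 * (C2 / b ^ 2 * L ^ 2)) ≤ (4 * L) * (2 * (C2 / b ^ 2 * L ^ 2)) :=
          mul_le_mul_of_nonneg_right h2 (by positivity)
      _ = 8 * (C2 / b ^ 2) * L ^ 3 := by ring
  have h4 : (1 : ℝ) ≤ L ^ 3 := one_le_pow₀ hL1
  have h5 : S0 ≤ S0 * L ^ 3 := le_mul_of_one_le_right hS00 h4
  have h6 : (S0 + 8 * (C2 / b ^ 2) + 1) * L ^ 3 = S0 * L ^ 3 + 8 * (C2 / b ^ 2) * L ^ 3 + L ^ 3 := by
    ring
  rw [h6]
  linarith

end Pool.Agent.H539.OS.TL
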